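import Pool.Agent.helper81.DI.SpecB

/-!
Module B2 of project di: characters of a subgroup, extended by zero.
-/

set_option autoImplicit false

namespace Pool.Agent.DI

open Pool.Agent.helper58.DC

theorem B2_ext {H : Type} [Group H] {L : Subgroup H} {χ ψ : H → ℂ} (hχ : χ ∈ IrrOn L)
    (hψ : ψ ∈ IrrOn L) (h : (fun h : L => χ (h : H)) = fun h : L => ψ (h : H)) : χ = ψ := by
  funext g
  by_cases hg : g ∈ L
  · exact congrFun h ⟨g, hg⟩
  · rw [hχ.1 g hg, hψ.1 g hg]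

open Classical in
theorem B2_sum {H : Type} [Group H] (L : Subgroup H) (f : H → ℂ) (hf : ∀ g, g ∉ L → f g = 0) :
    ∑ᶠ g : H, f g = ∑ᶠ g : L, f (g : H) := by
  have h1 : ∑ᶠ g : L, f (g : H) = ∑ᶠ g ∈ (L : Set H), f g :=
    finsum_set_coe_eq_finsum_mem (L : Set H)
  rw [h1]
  refine finsum_congr fun g => ?_
  by_cases hg : g ∈ L
  · have : g ∈ (L : Set H) := hg
    simp [hg]
  · rw [hf g hg]
    simp

open Classical in
theorem B2 (hB1 : B1_stmt) : B2_stmt := by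
  intro H _ _ L
  obtain ⟨hfin, hall⟩ := hB1 L
  refine ⟨?_, ?_⟩
  · refine Set.Finite.of_injOn (f := fun (χ : H → ℂ) (h : L) => χ (h : H)) (t := Irr L) ?_ ?_ hfin
    · intro χ hχ
      exact hχ.2
    · intro χ hχ ψ hψ h
      exact B2_ext hχ hψ h
  · intro χ hχ
    obtain ⟨h1, h2, h3, h4⟩ := hall _ hχ.2
    refine ⟨?_, ?_, ?_, hχ.1, ?_⟩
    · obtain ⟨n, hn, hn1, hn2⟩ := h1
      exact ⟨n, hn, hn1, hn2⟩
    · intro g h hh
      by_cases hg : g ∈ L
      · exact h2 ⟨g, hg⟩ ⟨h, hh⟩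
      · have : h * g * h⁻¹ ∉ L := by
          intro h'
          apply hg
          have := L.mul_mem (L.mul_mem (L.inv_mem hh) h') hh
          simpa [mul_assoc] using this
        rw [hχ.1 _ this, hχ.1 g hg]
    · intro g
      by_cases hg : g ∈ L
      · exact h3 ⟨g, hg⟩
      · rw [hχ.1 g hg]
        exact isIntegral_zero
    · intro ψ hψ
      rw [B2_sum L (fun g => χ g * ψ g⁻¹) fun g hg => by rw [hχ.1 g hg, zero_mul]]
      have h5 := h4 _ hψ.2
      have h6 : (∑ᶠ g : L, χ (g : H) * ψ ((g : H))⁻¹) =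
          ∑ᶠ g : L, (fun h : L => χ (h : H)) g * (fun h : L => ψ (h : H)) g⁻¹ := rfl
      rw [h6, h5]
      by_cases h : χ = ψ
      · rw [if_pos h, if_pos (by rw [h])]
      · rw [if_neg h, if_neg fun h' => h (B2_ext hχ hψ h')]

end Pool.Agent.DI
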